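import Pool.Agent.Helper49.SO.Final
import Pool.Agent.Helper87.UG.LossPt

/-!
# TX: tails of the number of zeros in a window, without a weight: definitions

`Sn` is the error term of the counting function (`Helper49.SO`); with the kernel `2 kX X - kX (X/2)`, which decays like
the cube of the distance, the error term itself is `-PP X` up to `O(M)`, `M = log T/X`, outside a small set.
-/

set_option autoImplicit false
open MeasureTheory Set Filter Topology
open Pool.Agent.Helper57.Zeta Pool.Agent.Helper57.LH Pool.Agent.Helper57.ED Pool.Agent.Helper54.LG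
open Pool.Agent.Helper93.UG (zc sp)
open Pool.Agent.Helper49.SO (Sn DS kX Pr)

namespace Pool.Agent.Helper57.TX

/-- The basic interval. -/
def JJ (T : ℝ) : Set ℝ := Icc (T / 2) (4 * T)

/-- Its profile. -/
noncomputable def ph (u : ℝ) : ℝ := 2 * max 0 (1 - u) ^ 2 - max 0 (1 - 2 * u) ^ 2

/-- The prime sum of `kp X`. -/
noncomputable def PP (X y : ℝ) : ℝ := 2 * Pr X y - Pr (X / 2) y

/-- Primes up to `exp X`. -/
noncomputable def QX (X : ℝ) : Finset ℕ := (Finset.range (⌊Real.exp X⌋₊ + 1)).filter Nat.Prime

/-- A Dirichlet polynomial over primes, on the critical line. -/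
noncomputable def DP (Q : Finset ℕ) (r : ℕ → ℝ) (t : ℝ) : ℂ :=
  ∑ p ∈ Q, (r p : ℂ) * (p : ℂ) ^ (-((1 / 2 : ℂ) + (t : ℂ) * Complex.I))

/-- Coefficients of the difference `PP X (y + h) - PP X y`, primes. -/
noncomputable def ra (X h : ℝ) (p : ℕ) : ℝ := 2 / Real.pi * ph (Real.log p / X) * Real.sin (h * Real.log p / 2)

/-- Coefficients of `PP X`, squares of primes. -/
noncomputable def rb (X : ℝ) (p : ℕ) : ℝ := 1 / (2 * Real.pi) * ph (2 * Real.log p / X) / √p

/-- Coefficients of `SS X`, primes. -/
noncomputable def rs (X : ℝ) (p : ℕ) : ℝ := 2 / X * Real.log p * (1 - Real.log p / X) ^ 2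

end Pool.Agent.Helper57.TX
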