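import Pool.Agent.Helper57.TX.Master
import Pool.Agent.Helper49.TX.Point4
import Pool.Agent.Helper53.TX.Far0
import Pool.Agent.Helper49.TX.Mom
import Pool.Agent.Helper7.TX.Var
import Pool.Agent.Helper64.TX.Var
import Pool.Agent.Helper20.TX.SqTail
import Pool.Agent.Helper87.TX.Good
import Pool.Agent.Helper25.TX.SsPt
import Pool.Agent.Helper54.TX.Tx2
import Pool.Agent.Helper9.TX.Tx1
import Pool.Agent.Helper17.TX.Expand

/-!
# TX: assembly of part (c)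
-/

set_option autoImplicit false
open MeasureTheory Set Filter Topology
open Pool.Agent.Helper93.UG (zc sp)
open Pool.Agent.Helper69.UG (XX near far)
open Pool.Agent.Helper49.SO (Sn DS kX Pr)

namespace Pool.Agent.Helper57.TX

/-- A12 from the last block -/
theorem master' (expand : ∃ C : ℝ, 0 < C ∧ ∀ X y h : ℝ, 1 / 2 ≤ X →
      |PP X (y + h) - PP X y| ≤ ‖DP (QX X) (ra X h) (y + h / 2)‖ + ‖DP (QX (X / 2)) (rb X) (2 * (y + h))‖ +
        ‖DP (QX (X / 2)) (rb X) (2 * y)‖ + C) :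
    ∃ C κ M₀ T₀ : ℝ, 0 < C ∧ 0 < κ ∧ 1 ≤ M₀ ∧ ∀ T c M : ℝ, T₀ ≤ T → 1 ≤ c →
      c * Real.log (Real.log T) ≤ Real.log T → M₀ ≤ M → M ≤ Real.log T →
      ∀ (V : ℝ) (k : ℕ), 0 < V → (k : ℝ) ≤ M / 8 →
      volume {t : ℝ | T / 2 ≤ t ∧ t ≤ 3 * T ∧ V + C * M ≤ |(zc (Ico t (t + c * sp T)) : ℝ) - c|} ≤
        ENNReal.ofReal ((C * Real.exp (-(κ * M)) +
          C * (k.factorial * (2 / Real.pi ^ 2 * (Real.log c + C) / V ^ 2) ^ k)) * T) :=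
  master_of Pool.Agent.Helper49.TX.mom_tail Pool.Agent.Helper7.TX.var_ra
    (Pool.Agent.Helper20.TX.sq_tail_of Pool.Agent.Helper49.TX.mom_tail Pool.Agent.Helper64.TX.var_rb) expand
    (Pool.Agent.Helper87.TX.good_of Pool.Agent.Helper49.TX.sharp_pt4 Pool.Agent.Helper53.TX.far0
      (Pool.Agent.Helper20.TX.ss_tail_of Pool.Agent.Helper49.TX.mom_tail Pool.Agent.Helper64.TX.var_rs
        Pool.Agent.Helper25.TX.ss_pt))

theorem tx2' (expand : ∃ C : ℝ, 0 < C ∧ ∀ X y h : ℝ, 1 / 2 ≤ X →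
      |PP X (y + h) - PP X y| ≤ ‖DP (QX X) (ra X h) (y + h / 2)‖ + ‖DP (QX (X / 2)) (rb X) (2 * (y + h))‖ +
        ‖DP (QX (X / 2)) (rb X) (2 * y)‖ + C) : Pool.Agent.Helper93.UX.TX2 :=
  Pool.Agent.Helper54.TX.tx2_of (master' expand)

theorem tx1' (expand : ∃ C : ℝ, 0 < C ∧ ∀ X y h : ℝ, 1 / 2 ≤ X →
      |PP X (y + h) - PP X y| ≤ ‖DP (QX X) (ra X h) (y + h / 2)‖ + ‖DP (QX (X / 2)) (rb X) (2 * (y + h))‖ +
        ‖DP (QX (X / 2)) (rb X) (2 * y)‖ + C) : Pool.Agent.Helper93.UX.TX1 :=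
  Pool.Agent.Helper9.TX.tx1_of (master' expand)

theorem tx1 : Pool.Agent.Helper93.UX.TX1 := tx1' expand

theorem tx2 : Pool.Agent.Helper93.UX.TX2 := tx2' expand

end Pool.Agent.Helper57.TX
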