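import Pool.Agent.Helper57.TX.Defs

/-!
# TX: block A12, the tail of the number of zeros in a window
-/

set_option autoImplicit false
open MeasureTheory Set Filter Topology
open Pool.Agent.Helper93.UG (zc sp)
open Pool.Agent.Helper69.UG (XX near far)
open Pool.Agent.Helper49.SO (Sn DS kX Pr mn Nn)

namespace Pool.Agent.Helper57.TX

/-- the main term over a window -/
theorem mn_win {T c t : ℝ} (hT : 1 < T) (hc : 0 ≤ c) (hcT : c ≤ Real.log T) (h1 : T / 2 ≤ t)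
    (h2 : t + c * sp T ≤ 4 * T) : |mn (t + c * sp T) - mn t - c| ≤ 3 := by
  have hpi := Real.pi_pos
  have hL : 0 < Real.log T := Real.log_pos hT
  have hT0 : 0 < T := by linarith
  obtain ⟨h, hh⟩ : ∃ h, h = c * sp T := ⟨_, rfl⟩
  have hh0 : 0 ≤ h := by rw [hh]; unfold sp; positivity
  have hhL : h * Real.log T = 2 * Real.pi * c := by rw [hh]; unfold sp; field_simp
  have ht0 : 0 < t := by linarith
  rw [← hh] at h2 ⊢
  have e1 := Pool.Agent.Helper49.SO.mn_sub ht0 (show t ≤ t + h by linarith)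
  have i1 := Pool.Agent.Helper49.SO.log_ii ht0 (show t ≤ t + h by linarith)
  have e2 : mn (t + h) - mn t - c = 1 / (2 * Real.pi) * ∫ w in t..(t + h), (Real.log (w / (2 * Real.pi)) - Real.log T) := by
    rw [e1, intervalIntegral.integral_sub i1 intervalIntegrable_const, intervalIntegral.integral_const, smul_eq_mul]
    have e3 : (t + h - t) * Real.log T = 2 * Real.pi * c := by rw [← hhL]; ring
    rw [e3, mul_sub]
    congr 1
    field_simp
  have b1 : ‖∫ w in t..(t + h), (Real.log (w / (2 * Real.pi)) - Real.log T)‖ ≤ 3 * |t + h - t| := by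
    apply intervalIntegral.norm_integral_le_of_norm_le_const
    intro w hw
    rw [uIoc_of_le (by linarith)] at hw
    have hw0 : 0 < w := by linarith [hw.1]
    rw [Real.norm_eq_abs, ← Real.log_div (by positivity) hT0.ne', div_div]
    have hpi3 := Real.pi_gt_three
    have hpi4 := Real.pi_lt_d2
    have l1 : 1 / 13 ≤ w / (2 * Real.pi * T) := by
      rw [div_le_div_iff₀ (by norm_num) (by positivity)]
      have : w ≥ T / 2 := by linarith [hw.1]
      nlinarith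
    have l2 : w / (2 * Real.pi * T) ≤ 1 := by
      rw [div_le_one (by positivity)]
      have : w ≤ 4 * T := by linarith [hw.2]
      nlinarith
    have l3 : Real.log (1 / 13) ≤ Real.log (w / (2 * Real.pi * T)) := Real.log_le_log (by norm_num) l1
    have l4 : Real.log (w / (2 * Real.pi * T)) ≤ 0 := Real.log_nonpos (by positivity) l2
    have l5 : Real.log 13 ≤ 3 := by
      rw [Real.log_le_iff_le_exp (by norm_num)]
      have e4 : Real.exp 3 = Real.exp 1 ^ 3 := by rw [← Real.exp_nat_mul]; norm_num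
      have e5 := Real.exp_one_gt_d9
      rw [e4]
      calc (13:ℝ) ≤ 2.7 ^ 3 := by norm_num
        _ ≤ Real.exp 1 ^ 3 := pow_le_pow_left₀ (by norm_num) (by linarith) 3
    rw [Real.log_div (by norm_num) (by norm_num), Real.log_one] at l3
    rw [abs_le]
    constructor <;> linarith
  rw [e2, abs_mul, abs_of_pos (by positivity), ← Real.norm_eq_abs]
  have b2 : 3 * |t + h - t| = 3 * h := by rw [add_sub_cancel_left, abs_of_nonneg hh0]
  rw [b2] at b1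
  have b3 : h ≤ 2 * Real.pi := by
    by_contra hcon
    push Not at hcon
    nlinarith
  calc 1 / (2 * Real.pi) * ‖∫ w in t..(t + h), (Real.log (w / (2 * Real.pi)) - Real.log T)‖ ≤ 1 / (2 * Real.pi) * (3 * h) :=
        mul_le_mul_of_nonneg_left b1 (by positivity)
    _ ≤ 1 / (2 * Real.pi) * (3 * (2 * Real.pi)) := by gcongr
    _ = 3 := by field_simp

/-- A12 -/
theorem master_of
    (h4 : ∃ T₀ : ℝ, ∀ T L : ℝ, T₀ ≤ T → 1 ≤ L → ∀ (Q : Finset ℕ) (r : ℕ → ℝ) (k : ℕ), (∀ p ∈ Q, p.Prime ∧ (p : ℝ) ≤ L) →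
      L ^ k ≤ T ^ (1 / 4 : ℝ) → ∀ V : ℝ, 0 < V →
      volume {t : ℝ | t ∈ JJ T ∧ V ≤ ‖DP Q r t‖} ≤
        ENNReal.ofReal (4 * k.factorial * ((∑ p ∈ Q, r p ^ 2 / p) / V ^ 2) ^ k * T))
    (h5 : ∃ C T₀ : ℝ, 0 < C ∧ ∀ T c X : ℝ, T₀ ≤ T → 1 ≤ c → c * Real.log (Real.log T) ≤ Real.log T → 1 / 2 ≤ X →
      X ≤ Real.log T → ∑ p ∈ QX X, ra X (c * sp T) p ^ 2 / p ≤ 2 / Real.pi ^ 2 * (Real.log c + C))
    (h9 : ∃ κ M₀ T₀ : ℝ, 0 < κ ∧ 1 ≤ M₀ ∧ ∀ T M : ℝ, T₀ ≤ T → M₀ ≤ M → M ≤ Real.log T →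
      volume {t : ℝ | t ∈ JJ T ∧ M < ‖DP (QX (XX T M / 2)) (rb (XX T M)) (2 * t)‖} ≤
        ENNReal.ofReal (Real.exp (-(κ * M)) * T))
    (h10 : ∃ C : ℝ, 0 < C ∧ ∀ X y h : ℝ, 1 / 2 ≤ X →
      |PP X (y + h) - PP X y| ≤ ‖DP (QX X) (ra X h) (y + h / 2)‖ + ‖DP (QX (X / 2)) (rb X) (2 * (y + h))‖ +
        ‖DP (QX (X / 2)) (rb X) (2 * y)‖ + C)
    (h11 : ∃ C κ M₀ T₀ : ℝ, 0 < C ∧ 0 < κ ∧ 1 ≤ M₀ ∧ ∀ T M : ℝ, T₀ ≤ T → M₀ ≤ M → M ≤ Real.log T →
      volume {t : ℝ | t ∈ JJ T ∧ C * M < |Sn t + PP (XX T M) t|} ≤ ENNReal.ofReal (C * Real.exp (-(κ * M)) * T)) :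
    ∃ C κ M₀ T₀ : ℝ, 0 < C ∧ 0 < κ ∧ 1 ≤ M₀ ∧ ∀ T c M : ℝ, T₀ ≤ T → 1 ≤ c →
      c * Real.log (Real.log T) ≤ Real.log T → M₀ ≤ M → M ≤ Real.log T →
      ∀ (V : ℝ) (k : ℕ), 0 < V → (k : ℝ) ≤ M / 8 →
      volume {t : ℝ | T / 2 ≤ t ∧ t ≤ 3 * T ∧ V + C * M ≤ |(zc (Ico t (t + c * sp T)) : ℝ) - c|} ≤
        ENNReal.ofReal ((C * Real.exp (-(κ * M)) +
          C * (k.factorial * (2 / Real.pi ^ 2 * (Real.log c + C) / V ^ 2) ^ k)) * T) := by
  obtain ⟨T4, h4⟩ := h4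
  obtain ⟨C5, T5, hC5, h5⟩ := h5
  obtain ⟨κ9, M9, T9, hκ9, hM9, h9⟩ := h9
  obtain ⟨C10, hC10, h10⟩ := h10
  obtain ⟨C11, κ11, M11, T11, hC11, hκ11, hM11, h11⟩ := h11
  obtain ⟨C, hC⟩ : ∃ C, C = 2 * C11 + C10 + C5 + 10 := ⟨_, rfl⟩
  refine ⟨C, min κ9 κ11, max M9 M11, max (max T4 T5) (max (max T9 T11) (Real.exp (Real.exp 7))), by rw [hC]; positivity,
    lt_min hκ9 hκ11, hM9.trans (le_max_left _ _), ?_⟩
  intro T c M hT hc hcT hM hMT V k hV hk
  simp only [max_le_iff] at hT hM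
  obtain ⟨⟨hT4, hT5⟩, ⟨hT9, hT11⟩, hTe⟩ := hT
  obtain ⟨hM9', hM11'⟩ := hM
  have hpi := Real.pi_pos
  have hpi4 := Real.pi_lt_d2
  have hT0 : 0 < T := (Real.exp_pos _).trans_le hTe
  have hlog : Real.exp 7 ≤ Real.log T := by rwa [Real.le_log_iff_exp_le hT0]
  have hL0 : 0 < Real.log T := (Real.exp_pos _).trans_le hlog
  have hll : 7 ≤ Real.log (Real.log T) := by rwa [Real.le_log_iff_exp_le hL0]
  have hT1 : 1 < T := by
    by_contra hcon
    push Not at hcon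
    have := Real.log_nonpos hT0.le hcon
    linarith
  have hT7 : 8 ≤ T := by
    have h1 : Real.exp 7 + 1 ≤ Real.exp (Real.exp 7) := Real.add_one_le_exp _
    have h2 := Real.add_one_le_exp (7:ℝ)
    linarith
  have hc7 : c * 7 ≤ Real.log T := (mul_le_mul_of_nonneg_left hll (by linarith)).trans hcT
  have hcL : c ≤ Real.log T := by linarith
  have hM1 : 1 ≤ M := hM9.trans hM9'
  have hM0 : 0 < M := by linarith
  obtain ⟨h, hh⟩ : ∃ h, h = c * sp T := ⟨_, rfl⟩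
  have hh0 : 0 ≤ h := by rw [hh]; unfold sp; positivity
  have hhL : h * Real.log T = 2 * Real.pi * c := by rw [hh]; unfold sp; field_simp
  have hh1 : h ≤ 1 := by
    by_contra hcon
    push Not at hcon
    nlinarith
  obtain ⟨X, hX⟩ : ∃ X, X = XX T M := ⟨_, rfl⟩
  have hXM : X * M = Real.log T := by rw [hX]; unfold XX; field_simp
  have hX1 : 1 ≤ X := by
    rw [hX]; unfold XX
    rwa [one_le_div hM0]
  have hXL : X ≤ Real.log T := by
    rw [← hXM]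
    nlinarith
  -- the sets
  have g11 := h11 T M hT11 hM11' hMT
  have g9 := h9 T M hT9 hM9' hMT
  rw [← hX] at g11 g9
  have hpow : Real.exp X ^ k ≤ T ^ (1 / 4 : ℝ) := by
    rw [← Real.exp_nat_mul, Real.rpow_def_of_pos hT0]
    apply Real.exp_le_exp.mpr
    have h1 : (k:ℝ) * X ≤ M / 8 * X := mul_le_mul_of_nonneg_right hk (by linarith)
    nlinarith
  have g4 := h4 T (Real.exp X) hT4 (Real.one_le_exp (by linarith)) (QX X) (ra X h) k (by
    intro p hp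
    unfold QX at hp
    rw [Finset.mem_filter, Finset.mem_range, Nat.lt_succ_iff] at hp
    exact ⟨hp.2, (Nat.le_floor_iff (Real.exp_pos _).le).mp hp.1⟩) hpow V hV
  have g5 := h5 T c X hT5 hc hcT (by linarith) hXL
  rw [← hh] at g5
  obtain ⟨E1, hE1⟩ : ∃ E1, E1 = {t : ℝ | t ∈ JJ T ∧ C11 * M < |Sn t + PP X t|} := ⟨_, rfl⟩
  obtain ⟨E3, hE3⟩ : ∃ E3, E3 = {t : ℝ | t ∈ JJ T ∧ M < ‖DP (QX (X / 2)) (rb X) (2 * t)‖} := ⟨_, rfl⟩
  obtain ⟨E5, hE5⟩ : ∃ E5, E5 = {t : ℝ | t ∈ JJ T ∧ V ≤ ‖DP (QX X) (ra X h) t‖} := ⟨_, rfl⟩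
  rw [← hE1] at g11
  rw [← hE3] at g9
  rw [← hE5] at g4
  have hsub : {t : ℝ | T / 2 ≤ t ∧ t ≤ 3 * T ∧ V + C * M ≤ |(zc (Ico t (t + c * sp T)) : ℝ) - c|} ⊆
      ((E1 ∪ (fun t => t + h) ⁻¹' E1) ∪ (E3 ∪ (fun t => t + h) ⁻¹' E3)) ∪ (fun t => t + h / 2) ⁻¹' E5 := by
    rintro t ⟨ht1, ht2, ht3⟩
    by_contra hcon
    simp only [mem_union, mem_preimage, not_or] at hcon
    obtain ⟨⟨⟨n1, n2⟩, n3, n4⟩, n5⟩ := hcon
    rw [hE1] at n1 n2
    rw [hE3] at n3 n4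
    rw [hE5] at n5
    have j1 : t ∈ JJ T := ⟨ht1, by linarith⟩
    have j2 : t + h ∈ JJ T := ⟨by linarith, by linarith⟩
    have j3 : t + h / 2 ∈ JJ T := ⟨by linarith, by linarith⟩
    have m1 : |Sn t + PP X t| ≤ C11 * M := by
      by_contra hc'
      push Not at hc'
      exact n1 ⟨j1, hc'⟩
    have m2 : |Sn (t + h) + PP X (t + h)| ≤ C11 * M := by
      by_contra hc'
      push Not at hc'
      exact n2 ⟨j2, hc'⟩
    have m3 : ‖DP (QX (X / 2)) (rb X) (2 * t)‖ ≤ M := by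
      by_contra hc'
      push Not at hc'
      exact n3 ⟨j1, hc'⟩
    have m4 : ‖DP (QX (X / 2)) (rb X) (2 * (t + h))‖ ≤ M := by
      by_contra hc'
      push Not at hc'
      exact n4 ⟨j2, hc'⟩
    have m5 : ‖DP (QX X) (ra X h) (t + h / 2)‖ < V := by
      by_contra hc'
      push Not at hc'
      exact n5 ⟨j3, hc'⟩
    have m6 := h10 X t h (by linarith)
    have m7 := mn_win hT1 (by linarith) hcL ht1 (show t + c * sp T ≤ 4 * T by rw [← hh]; linarith)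
    rw [← hh] at m7 ht3
    have m8 := Pool.Agent.Helper49.SO.Nn_sub (show t ≤ t + h by linarith)
    have m9 : (zc (Ico t (t + h)) : ℝ) - c = (Sn (t + h) + PP X (t + h)) - (Sn t + PP X t) - (PP X (t + h) - PP X t) +
        (mn (t + h) - mn t - c) := by
      rw [← m8]
      unfold Sn
      ring
    have m10 : |(zc (Ico t (t + h)) : ℝ) - c| ≤ |Sn (t + h) + PP X (t + h)| + |Sn t + PP X t| + |PP X (t + h) - PP X t| +
        |mn (t + h) - mn t - c| := by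
      rw [m9]
      refine (abs_add_le _ _).trans (add_le_add_left ?_ _)
      refine (abs_sub _ _).trans (add_le_add_left ?_ _)
      exact abs_sub _ _
    have m11 : C * M ≤ 2 * C11 * M + 2 * M + C10 + 3 := by linarith
    rw [hC] at m11
    nlinarith
  have hshift : ∀ (a : ℝ) (E : Set ℝ), volume ((fun t => t + a) ⁻¹' E) = volume E := fun a E =>
    MeasureTheory.measure_preimage_add_right volume a E
  have hT0' := hT0.le
  have a1 : 0 ≤ C11 * Real.exp (-(κ11 * M)) * T := by positivity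
  have a2 : 0 ≤ Real.exp (-(κ9 * M)) * T := by positivity
  have hS0 : 0 ≤ ∑ p ∈ QX X, ra X h p ^ 2 / p := Finset.sum_nonneg fun p _ => by positivity
  have a3 : 0 ≤ 4 * k.factorial * ((∑ p ∈ QX X, ra X h p ^ 2 / p) / V ^ 2) ^ k * T := by positivity
  have hvol : volume {t : ℝ | T / 2 ≤ t ∧ t ≤ 3 * T ∧ V + C * M ≤ |(zc (Ico t (t + c * sp T)) : ℝ) - c|} ≤
      ENNReal.ofReal (((C11 * Real.exp (-(κ11 * M)) * T + C11 * Real.exp (-(κ11 * M)) * T) +
        (Real.exp (-(κ9 * M)) * T + Real.exp (-(κ9 * M)) * T)) +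
        4 * k.factorial * ((∑ p ∈ QX X, ra X h p ^ 2 / p) / V ^ 2) ^ k * T) := by
    refine (measure_mono hsub).trans ?_
    rw [ENNReal.ofReal_add (by positivity) a3, ENNReal.ofReal_add (by positivity) (by positivity),
      ENNReal.ofReal_add a1 a1, ENNReal.ofReal_add a2 a2]
    refine (measure_union_le _ _).trans (add_le_add ((measure_union_le _ _).trans (add_le_add
      ((measure_union_le _ _).trans (add_le_add g11 ?_)) ((measure_union_le _ _).trans (add_le_add g9 ?_)))) ?_)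
    · rw [hshift]; exact g11
    · rw [hshift]; exact g9
    · rw [hshift]; exact g4
  refine hvol.trans (ENNReal.ofReal_le_ofReal ?_)
  have hC5' : C5 ≤ C := by rw [hC]; linarith
  have hC4 : 4 ≤ C := by rw [hC]; linarith
  have hlc : 0 ≤ Real.log c := Real.log_nonneg hc
  have e1 : Real.exp (-(κ11 * M)) ≤ Real.exp (-(min κ9 κ11 * M)) := by
    apply Real.exp_le_exp.mpr
    have := mul_le_mul_of_nonneg_right (min_le_right κ9 κ11) hM0.le
    linarith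
  have e2 : Real.exp (-(κ9 * M)) ≤ Real.exp (-(min κ9 κ11 * M)) := by
    apply Real.exp_le_exp.mpr
    have := mul_le_mul_of_nonneg_right (min_le_left κ9 κ11) hM0.le
    linarith
  have e3 : (∑ p ∈ QX X, ra X h p ^ 2 / p) / V ^ 2 ≤ 2 / Real.pi ^ 2 * (Real.log c + C) / V ^ 2 := by
    apply div_le_div_of_nonneg_right _ (sq_nonneg _)
    refine g5.trans ?_
    gcongr
  have e4 : ((∑ p ∈ QX X, ra X h p ^ 2 / p) / V ^ 2) ^ k ≤ (2 / Real.pi ^ 2 * (Real.log c + C) / V ^ 2) ^ k :=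
    pow_le_pow_left₀ (by positivity) e3 k
  have e5 : 4 * k.factorial * ((∑ p ∈ QX X, ra X h p ^ 2 / p) / V ^ 2) ^ k ≤
      C * (k.factorial * (2 / Real.pi ^ 2 * (Real.log c + C) / V ^ 2) ^ k) := by
    rw [mul_assoc]
    have hk0 : (0:ℝ) ≤ k.factorial := by positivity
    have h1 : (k.factorial : ℝ) * ((∑ p ∈ QX X, ra X h p ^ 2 / p) / V ^ 2) ^ k ≤
        k.factorial * (2 / Real.pi ^ 2 * (Real.log c + C) / V ^ 2) ^ k := mul_le_mul_of_nonneg_left e4 hk0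
    have h2 : 0 ≤ (k.factorial : ℝ) * ((∑ p ∈ QX X, ra X h p ^ 2 / p) / V ^ 2) ^ k := by positivity
    exact mul_le_mul hC4 h1 h2 (by linarith)
  have e6 : 2 * (C11 * Real.exp (-(κ11 * M))) + 2 * Real.exp (-(κ9 * M)) ≤ C * Real.exp (-(min κ9 κ11 * M)) := by
    have h1 : C11 * Real.exp (-(κ11 * M)) ≤ C11 * Real.exp (-(min κ9 κ11 * M)) := mul_le_mul_of_nonneg_left e1 hC11.le
    have h2 : 0 < Real.exp (-(min κ9 κ11 * M)) := Real.exp_pos _
    rw [hC]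
    nlinarith
  calc ((C11 * Real.exp (-(κ11 * M)) * T + C11 * Real.exp (-(κ11 * M)) * T) +
        (Real.exp (-(κ9 * M)) * T + Real.exp (-(κ9 * M)) * T)) +
        4 * k.factorial * ((∑ p ∈ QX X, ra X h p ^ 2 / p) / V ^ 2) ^ k * T
      = ((2 * (C11 * Real.exp (-(κ11 * M))) + 2 * Real.exp (-(κ9 * M))) +
        4 * k.factorial * ((∑ p ∈ QX X, ra X h p ^ 2 / p) / V ^ 2) ^ k) * T := by ring
    _ ≤ (C * Real.exp (-(min κ9 κ11 * M)) + C * (k.factorial * (2 / Real.pi ^ 2 * (Real.log c + C) / V ^ 2) ^ k)) * T :=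
        mul_le_mul_of_nonneg_right (add_le_add e6 e5) hT0'

end Pool.Agent.Helper57.TX
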